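import Pool.Agent.H94.NF.S

/-!
# NF, rows PT3, SG3, DS3: singular cubic polynomials
-/

set_option autoImplicit false

namespace Pool.NF

open Polynomial NumberField IsDedekindDomain

namespace PT3aux

theorem zer_eval {R : Type} [CommRing R] {I : Ideal R} {p : R[X]} (hp : Pool.T1.Zer I p) (r : R) :
    p.eval r ∈ I := by
  rw [eval_eq_sum_range]
  exact Ideal.sum_mem _ fun i _ => I.mul_mem_right _ (hp i)

theorem zer_der {R : Type} [CommRing R] {I : Ideal R} {p : R[X]} (hp : Pool.T1.Zer I p) :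
    Pool.T1.Zer I (derivative p) := by
  intro i
  rw [coeff_derivative]
  exact I.mul_mem_right _ (hp _)

theorem zer_map {R : Type} [CommRing R] {I : Ideal R} {p : R[X]} (hp : Pool.T1.Zer I p) :
    p.map (Ideal.Quotient.mk I) = 0 := by
  ext i
  rw [coeff_map, coeff_zero, Ideal.Quotient.eq_zero_iff_mem]
  exact hp i

theorem cub_map {R S : Type} [CommRing R] [CommRing S] (φ : R →+* S) (a₁ a₂ a₃ : R) :
    (cub a₁ a₂ a₃).map φ = cub (φ a₁) (φ a₂) (φ a₃) := by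
  simp [cub]

theorem cub_deg {S : Type} [CommRing S] [Nontrivial S] (a₁ a₂ a₃ : S) :
    (cub a₁ a₂ a₃).natDegree = 3 := by
  unfold cub
  compute_degree!

theorem cub_eval {S : Type} [CommRing S] (a₁ a₂ a₃ r : S) :
    (cub a₁ a₂ a₃).eval r = r ^ 3 + a₁ * r ^ 2 + a₂ * r + a₃ := by
  simp [cub]

theorem cub_der {S : Type} [CommRing S] (a₁ a₂ a₃ r : S) :
    (derivative (cub a₁ a₂ a₃)).eval r = 3 * r ^ 2 + 2 * a₁ * r + a₂ := by
  simp [cub]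
  ring

end PT3aux

open PT3aux

theorem pt3 : PT3Stmt := by
  intro R _ P hP a₁ a₂ a₃ ⟨γ, a, b, c, hγ, hirr, hb, hc, hf⟩
  have hprime : P.IsPrime := hP.isPrime
  have hc' : Pool.T1.Zer P c := fun i => Ideal.pow_le_self two_ne_zero (hc i)
  have hmap : cub (Ideal.Quotient.mk P a₁) (Ideal.Quotient.mk P a₂) (Ideal.Quotient.mk P a₃) =
      (γ.map (Ideal.Quotient.mk P)) ^ 2 * a.map (Ideal.Quotient.mk P) := by
    rw [← cub_map, hf]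
    simp only [Polynomial.map_add, Polynomial.map_mul, Polynomial.map_pow]
    rw [zer_map hb, zer_map hc', mul_zero, add_zero, add_zero]
  have hdeg := congrArg natDegree hmap
  rw [cub_deg] at hdeg
  have hγm : (γ.map (Ideal.Quotient.mk P)).Monic := hγ.map _
  have ha0 : a.map (Ideal.Quotient.mk P) ≠ 0 := by
    intro h0
    rw [h0, mul_zero, natDegree_zero] at hdeg
    exact absurd hdeg (by norm_num)
  rw [natDegree_mul (pow_ne_zero 2 hγm.ne_zero) ha0, natDegree_pow] at hdeg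
  have hpos : 0 < (γ.map (Ideal.Quotient.mk P)).natDegree :=
    hγm.natDegree_pos_of_not_isUnit hirr.not_isUnit
  have h1 : (γ.map (Ideal.Quotient.mk P)).natDegree = 1 := by omega
  rw [hγ.natDegree_map] at h1
  have hγe := hγ.eq_X_add_C h1
  have hγ0 : γ.eval (-(γ.coeff 0)) = 0 := by
    conv_lhs => rw [hγe]
    simp
  have hγ1 : (derivative γ).eval (-(γ.coeff 0)) = 1 := by
    conv_lhs => rw [hγe]
    simp
  refine ⟨-(γ.coeff 0), ?_, ?_⟩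
  · have h2 := congrArg (eval (-(γ.coeff 0))) hf
    rw [cub_eval, eval_add, eval_add, eval_mul, eval_mul, eval_pow, hγ0] at h2
    rw [h2]
    have h3 : (0 : R) ^ 2 * eval (-(γ.coeff 0)) a + 0 * eval (-(γ.coeff 0)) b +
        eval (-(γ.coeff 0)) c = eval (-(γ.coeff 0)) c := by ring
    rw [h3]
    exact zer_eval hc _
  · have h2 := congrArg (fun q => eval (-(γ.coeff 0)) (derivative q)) hf
    rw [cub_der] at h2
    simp only [derivative_add, derivative_mul, derivative_pow, eval_add, eval_mul, eval_pow,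
      hγ0, hγ1] at h2
    rw [h2]
    have h3 : eval (-(γ.coeff 0)) (derivative c) ∈ P := zer_eval (zer_der hc') _
    have h4 : eval (-(γ.coeff 0)) b ∈ P := zer_eval hb _
    have h5 := P.add_mem h4 h3
    simpa using h5

theorem sg3 (hPT : PT3Stmt) : SG3Stmt := by
  intro R _ P hP h3 a₁ a₂
  have hprime : P.IsPrime := hP.isPrime
  have key : ∀ r₁ r a₃ : R, 3 * r₁ ^ 2 + 2 * a₁ * r₁ + a₂ ∈ P → r - r₁ ∈ P →
      r ^ 3 + a₁ * r ^ 2 + a₂ * r + a₃ ∈ P ^ 2 →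
      a₃ - (-(r₁ ^ 3 + a₁ * r₁ ^ 2 + a₂ * r₁)) ∈ P ^ 2 := by
    intro r₁ r a₃ h1 h2 h4
    have h5 : (r - r₁) * (3 * r₁ ^ 2 + 2 * a₁ * r₁ + a₂) ∈ P ^ 2 := by
      rw [pow_two]
      exact Ideal.mul_mem_mul h2 h1
    have h6 : (r - r₁) * (r - r₁) ∈ P ^ 2 := by
      rw [pow_two]
      exact Ideal.mul_mem_mul h2 h2
    have h7 := (P ^ 2).mul_mem_left (3 * r₁ + a₁ + (r - r₁)) h6
    have h8 := (P ^ 2).sub_mem ((P ^ 2).sub_mem h4 h5) h7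
    have h9 : r ^ 3 + a₁ * r ^ 2 + a₂ * r + a₃ - (r - r₁) * (3 * r₁ ^ 2 + 2 * a₁ * r₁ + a₂) -
        (3 * r₁ + a₁ + (r - r₁)) * ((r - r₁) * (r - r₁)) =
        a₃ - (-(r₁ ^ 3 + a₁ * r₁ ^ 2 + a₂ * r₁)) := by ring
    rw [h9] at h8
    exact h8
  by_cases he : ∃ r₁ : R, 3 * r₁ ^ 2 + 2 * a₁ * r₁ + a₂ ∈ P
  · obtain ⟨r₁, hr₁⟩ := he
    have vie : ∀ r : R, 3 * r ^ 2 + 2 * a₁ * r + a₂ ∈ P → r - r₁ ∉ P →
        3 * (r + r₁) + 2 * a₁ ∈ P := by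
      intro r hr hn
      have h4 := P.sub_mem hr hr₁
      have h5 : 3 * r ^ 2 + 2 * a₁ * r + a₂ - (3 * r₁ ^ 2 + 2 * a₁ * r₁ + a₂) =
          (r - r₁) * (3 * (r + r₁) + 2 * a₁) := by ring
      rw [h5] at h4
      exact (hprime.mem_or_mem h4).resolve_left hn
    by_cases he2 : ∃ r₂ : R, 3 * r₂ ^ 2 + 2 * a₁ * r₂ + a₂ ∈ P ∧ r₂ - r₁ ∉ P
    · obtain ⟨r₂, hr₂, hn⟩ := he2
      refine ⟨-(r₁ ^ 3 + a₁ * r₁ ^ 2 + a₂ * r₁), -(r₂ ^ 3 + a₁ * r₂ ^ 2 + a₂ * r₂), ?_⟩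
      intro a₃ hS
      obtain ⟨r, h4, h5⟩ := hPT R P hP a₁ a₂ a₃ hS
      by_cases h6 : r - r₁ ∈ P
      · exact Or.inl (key r₁ r a₃ hr₁ h6 h4)
      · refine Or.inr (key r₂ r a₃ hr₂ ?_ h4)
        have h7 := P.sub_mem (vie r h5 h6) (vie r₂ hr₂ hn)
        have h8 : 3 * (r + r₁) + 2 * a₁ - (3 * (r₂ + r₁) + 2 * a₁) = 3 * (r - r₂) := by ring
        rw [h8] at h7
        exact (hprime.mem_or_mem h7).resolve_left h3
    · refine ⟨-(r₁ ^ 3 + a₁ * r₁ ^ 2 + a₂ * r₁), 0, ?_⟩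
      intro a₃ hS
      obtain ⟨r, h4, h5⟩ := hPT R P hP a₁ a₂ a₃ hS
      refine Or.inl (key r₁ r a₃ hr₁ ?_ h4)
      by_contra h6
      exact he2 ⟨r, h5, h6⟩
  · refine ⟨0, 0, ?_⟩
    intro a₃ hS
    obtain ⟨r, h4, h5⟩ := hPT R P hP a₁ a₂ a₃ hS
    exact absurd ⟨r, h5⟩ he

theorem PT3aux.ds3 (hPT : PT3Stmt) : DS3Stmt := by
  intro R _ P hP a₁ a₂ a₃ hS
  obtain ⟨r, h4, h5⟩ := hPT R P hP a₁ a₂ a₃ hS
  have h6 : (3 * r ^ 2 + 2 * a₁ * r + a₂) * (3 * r ^ 2 + 2 * a₁ * r + a₂) ∈ P ^ 2 := by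
    rw [pow_two P]
    exact Ideal.mul_mem_mul h5 h5
  obtain ⟨u, hu⟩ : ∃ u, u = r ^ 3 + a₁ * r ^ 2 + a₂ * r + a₃ := ⟨_, rfl⟩
  obtain ⟨v, hv⟩ : ∃ v, v = 3 * r ^ 2 + 2 * a₁ * r + a₂ := ⟨_, rfl⟩
  obtain ⟨w, hw⟩ : ∃ w, w = 3 * r + a₁ := ⟨_, rfl⟩
  rw [← hu] at h4
  rw [← hv] at h6
  have h7 : dsc a₁ a₂ a₃ = (w ^ 2 - 4 * v) * (v * v) +
      (-4 * w ^ 3 - 27 * u + 18 * w * v) * u := by
    rw [hu, hv, hw]
    unfold dsc
    ring
  rw [h7]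
  exact (P ^ 2).add_mem ((P ^ 2).mul_mem_left _ h6) ((P ^ 2).mul_mem_left _ h4)

end Pool.NF
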