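import Pool.Agent.H31.NF.ZPB

/-!
# NF: rules for the symbols, and the product of the symbols of a list
-/

set_option autoImplicit false

namespace Pool.NF

open Pool.T1 Pool.AVS

namespace TMMaux

open ZPBaux

open Classical in
/-- The quadratic character as a unit. -/
noncomputable def cu {p : ℕ} (a : ZMod p) : ℤˣ := if IsSquare a then 1 else -1

lemma coe_cu {p : ℕ} (a : ZMod p) : ((cu a : ℤˣ) : ℤ) = ch a := by
  by_cases h : IsSquare a
  · simp [cu, ch, h]
  · simp [cu, ch, h]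

lemma cu_mul {p : ℕ} (hp : p.Prime) {a b : ZMod p} (ha : a ≠ 0) (hb : b ≠ 0) :
    cu (a * b) = cu a * cu b := by
  apply Units.ext
  rw [Units.val_mul, coe_cu, coe_cu, coe_cu]
  exact (chm p hp a b ha hb).1

lemma cu_one {p : ℕ} : cu (1 : ZMod p) = 1 := by
  simp [cu]

lemma rsd_mul {p : ℕ} (hp : p.Prime) {x y : ℚ} (hx : x ∈ Zp p) (hy : y ∈ Zp p) :
    rsd p (x * y) = rsd p x * rsd p y := ((zpb p hp).2.2.1 x hx y hy).2

lemma rsd_one {p : ℕ} (hp : p.Prime) : rsd p 1 = 1 := by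
  have h := ((zpb p hp).2.2.2.1 1).2
  simpa using h

/-- `x` is a unit at `p`. -/
def UV (p : ℕ) (x : ℚ) : Prop := x ≠ 0 ∧ padicValRat p x = 0

lemma UV.mem {p : ℕ} (hp : p.Prime) {x : ℚ} (h : UV p x) : x ∈ Zp p := by
  rw [mem_iff hp h.1, h.2]

lemma UV.mul {p : ℕ} (hp : p.Prime) {x y : ℚ} (hx : UV p x) (hy : UV p y) : UV p (x * y) := by
  have : Fact p.Prime := ⟨hp⟩
  refine ⟨mul_ne_zero hx.1 hy.1, ?_⟩
  rw [padicValRat.mul hx.1 hy.1, hx.2, hy.2, add_zero]

lemma UV.inv {p : ℕ} (hp : p.Prime) {x : ℚ} (hx : UV p x) : UV p x⁻¹ := by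
  have : Fact p.Prime := ⟨hp⟩
  refine ⟨inv_ne_zero hx.1, ?_⟩
  rw [padicValRat.inv, hx.2, neg_zero]

lemma UV.one {p : ℕ} : UV p 1 := ⟨one_ne_zero, padicValRat.one⟩

lemma UV.neg {p : ℕ} {x : ℚ} (hx : UV p x) : UV p (-x) :=
  ⟨neg_ne_zero.2 hx.1, by rw [padicValRat.neg, hx.2]⟩

lemma UV.rsd_ne {p : ℕ} (hp : p.Prime) {x : ℚ} (hx : UV p x) : rsd p x ≠ 0 := by
  intro h
  have : Fact p.Prime := ⟨hp⟩
  have h1 := rsd_mul hp (hx.mem hp) ((hx.inv hp).mem hp)
  rw [mul_inv_cancel₀ hx.1, rsd_one hp, h, zero_mul] at h1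
  exact one_ne_zero h1


lemma UV.zpow {p : ℕ} (hp : p.Prime) {x : ℚ} (hx : UV p x) (n : ℤ) : UV p (x ^ n) := by
  have : Fact p.Prime := ⟨hp⟩
  refine ⟨zpow_ne_zero _ hx.1, ?_⟩
  rw [padicValRat.zpow, hx.2, mul_zero]

/-- The character of a unit. -/
noncomputable def cq (p : ℕ) (x : ℚ) : ℤˣ := cu (rsd p x)

lemma cq_mul {p : ℕ} (hp : p.Prime) {x y : ℚ} (hx : UV p x) (hy : UV p y) :
    cq p (x * y) = cq p x * cq p y := by
  unfold cq
  rw [rsd_mul hp (hx.mem hp) (hy.mem hp), cu_mul hp (hx.rsd_ne hp) (hy.rsd_ne hp)]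

lemma cq_one {p : ℕ} (hp : p.Prime) : cq p 1 = 1 := by
  unfold cq
  rw [rsd_one hp, cu_one]

lemma cq_inv {p : ℕ} (hp : p.Prime) {x : ℚ} (hx : UV p x) : cq p x⁻¹ = (cq p x)⁻¹ := by
  have h := cq_mul hp hx (hx.inv hp)
  rw [mul_inv_cancel₀ hx.1, cq_one hp] at h
  exact (inv_eq_of_mul_eq_one_right h.symm).symm

lemma cq_pow {p : ℕ} (hp : p.Prime) {x : ℚ} (hx : UV p x) (n : ℕ) : cq p (x ^ n) = cq p x ^ n := by
  induction n with
  | zero => rw [pow_zero, pow_zero, cq_one hp]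
  | succ n ih =>
    have h1 : UV p (x ^ n) := by
      have := hx.zpow hp (n : ℤ)
      rwa [zpow_natCast] at this
    rw [pow_succ, cq_mul hp h1 hx, ih, pow_succ]

lemma cq_zpow {p : ℕ} (hp : p.Prime) {x : ℚ} (hx : UV p x) (n : ℤ) :
    cq p (x ^ n) = cq p x ^ n := by
  obtain ⟨k, rfl | rfl⟩ := n.eq_nat_or_neg
  · rw [zpow_natCast, zpow_natCast, cq_pow hp hx]
  · have h1 : UV p (x ^ k) := by
      have := hx.zpow hp (k : ℤ)
      rwa [zpow_natCast] at this
    rw [zpow_neg, zpow_natCast, cq_inv hp h1, cq_pow hp hx, zpow_neg, zpow_natCast]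

lemma UV.up {p : ℕ} (hp : p.Prime) {x : ℚ} (hx : x ≠ 0) : UV p (up p x) :=
  ⟨up_ne hp hx, val_up hp hx⟩

lemma up_mul {p : ℕ} (hp : p.Prime) {x y : ℚ} (hx : x ≠ 0) (hy : y ≠ 0) :
    up p (x * y) = up p x * up p y := by
  have : Fact p.Prime := ⟨hp⟩
  have hp0 : (p : ℚ) ≠ 0 := Nat.cast_ne_zero.2 hp.ne_zero
  unfold NF.up
  rw [padicValRat.mul hx hy, zpow_add₀ hp0, mul_div_mul_comm]

lemma up_neg {p : ℕ} (x : ℚ) : up p (-x) = -up p x := by
  unfold NF.up
  rw [padicValRat.neg, neg_div]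

/-- The character of `-1`. -/
noncomputable def sg (p : ℕ) : ℤˣ := cq p (-1)

lemma UV.negone {p : ℕ} : UV p (-1) := UV.one.neg

lemma cq_neg {p : ℕ} (hp : p.Prime) {x : ℚ} (hx : UV p x) : cq p (-x) = sg p * cq p x := by
  rw [← neg_one_mul, cq_mul hp UV.negone hx, sg]

lemma tm_eq {p : ℕ} (hp : p.Prime) {x y : ℚ} (hx : x ≠ 0) (hy : y ≠ 0) :
    tm p x y = ((sg p ^ (padicValRat p x * padicValRat p y) * cq p (up p x) ^ padicValRat p y *
      cq p (up p y) ^ padicValRat p x : ℤˣ) : ℤ) := by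
  have h1 := UV.up hp hx
  have h2 := UV.up hp hy
  have h3 := (UV.negone (p := p)).zpow hp (padicValRat p x * padicValRat p y)
  unfold tm
  rw [← coe_cu]
  congr 1
  change cq p _ = _
  rw [cq_mul hp (h3.mul hp (h1.zpow hp _)) (h2.zpow hp _), cq_mul hp h3 (h1.zpow hp _),
    cq_zpow hp UV.negone, cq_zpow hp h1, cq_zpow hp h2]
  rfl

lemma u_even (u : ℤˣ) {n : ℤ} (h : Even n) : u ^ n = 1 := by
  obtain ⟨k, rfl⟩ := h
  rw [← two_mul, zpow_mul, zpow_ofNat, Int.units_sq, one_zpow]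

lemma u_par (u : ℤˣ) {m n : ℤ} (h : Even (m + n)) : u ^ m = u ^ n := by
  have h1 := u_even u h
  rw [zpow_add] at h1
  rw [eq_inv_of_mul_eq_one_left h1, Int.units_inv_eq_self]

lemma ch2 (r : ℕ) : (r + 1).choose 2 = r + r.choose 2 := by
  rw [Nat.choose_succ_succ' r 1, Nat.choose_one_right]

lemma aux_odd (s a U O : ℤˣ) (i j : ℤ) (r : ℕ) :
    s ^ ((2 * i + 1) * ((r : ℤ) + 2 * j)) * a ^ ((r : ℤ) + 2 * j) * U ^ (2 * i + 1) *
      (s ^ r.choose 2 * U ^ r * O) = s ^ (r + 1).choose 2 * (a * U) ^ (r + 1) * (a * O) := by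
  have h1 : s ^ ((2 * i + 1) * ((r : ℤ) + 2 * j)) = s ^ r := by
    rw [← zpow_natCast]
    exact u_par s ⟨i * r + 2 * i * j + j + r, by ring⟩
  have h2 : a ^ ((r : ℤ) + 2 * j) = a ^ r := by
    rw [← zpow_natCast]
    exact u_par a ⟨r + j, by ring⟩
  have h3 : U ^ (2 * i + 1) = U := by
    conv_rhs => rw [← zpow_one U]
    exact u_par U ⟨i + 1, by ring⟩
  have h4 : a * a = 1 := Int.units_mul_self a
  rw [h1, h2, h3, ch2, pow_add s, mul_pow, pow_succ a, pow_succ U]
  calc s ^ r * a ^ r * U * (s ^ r.choose 2 * U ^ r * O)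
      = s ^ r * s ^ r.choose 2 * (a ^ r * (U ^ r * U)) * O := by
        simp only [mul_comm, mul_left_comm, mul_assoc]
    _ = s ^ r * s ^ r.choose 2 * (a ^ r * (U ^ r * U)) * O * (a * a) := by
        rw [h4, mul_one]
    _ = _ := by
        simp only [mul_comm, mul_left_comm, mul_assoc]

lemma aux_even (s a U O : ℤˣ) (i j : ℤ) (r : ℕ) :
    s ^ ((i + i) * ((r : ℤ) + 2 * j)) * a ^ ((r : ℤ) + 2 * j) * U ^ (i + i) *
      (s ^ r.choose 2 * U ^ r * O) = s ^ r.choose 2 * (a * U) ^ r * O := by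
  have h1 : s ^ ((i + i) * ((r : ℤ) + 2 * j)) = 1 :=
    u_even s ⟨i * (r + 2 * j), by ring⟩
  have h2 : a ^ ((r : ℤ) + 2 * j) = a ^ r := by
    rw [← zpow_natCast]
    exact u_par a ⟨r + j, by ring⟩
  have h3 : U ^ (i + i) = 1 := u_even U ⟨i, rfl⟩
  rw [h1, h2, h3, mul_pow, mul_one, one_mul]
  simp only [mul_comm, mul_left_comm, mul_assoc]

lemma aux_fin (s U O : ℤˣ) (m : ℕ) :
    s ^ (2 * m).choose 2 * U ^ (2 * m) * O = s ^ m * O := by
  have h1 : s ^ (2 * m).choose 2 = s ^ m := by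
    induction m with
    | zero => simp
    | succ m ih =>
      have h2 : (2 * (m + 1)).choose 2 = (2 * m).choose 2 + 2 * (2 * m) + 1 := by
        rw [show 2 * (m + 1) = 2 * m + 1 + 1 by ring, ch2, ch2]
        ring
      rw [h2, pow_succ, pow_add, ih, pow_mul, Int.units_sq, one_pow, mul_one, pow_succ]
  rw [h1, pow_mul, Int.units_sq, one_pow, mul_one]

end TMMaux

open TMMaux in
theorem tmm : TMMStmt := by
  rintro p ⟨hp, -⟩ x y z hx hy hz
  have : Fact p.Prime := ⟨hp⟩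
  refine ⟨?_, ?_, ?_, ?_, ?_⟩
  · rw [tm_eq hp hx hy]
    rcases Int.units_eq_one_or (sg p ^ (padicValRat p x * padicValRat p y) *
      cq p (up p x) ^ padicValRat p y * cq p (up p y) ^ padicValRat p x) with h | h
    · left
      rw [h]
      rfl
    · right
      rw [h]
      rfl
  · rw [tm_eq hp hx hy, tm_eq hp hy hx, mul_comm (padicValRat p y), mul_right_comm]
  · rw [tm_eq hp hx hy, tm_eq hp hx hz, tm_eq hp hx (mul_ne_zero hy hz), ← Units.val_mul,
      padicValRat.mul hy hz, up_mul hp hy hz, cq_mul hp (UV.up hp hy) (UV.up hp hz), mul_add,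
      zpow_add, zpow_add, mul_zpow]
    congr 1
    simp only [mul_comm, mul_left_comm, mul_assoc]
  · rw [tm_eq hp hx (neg_ne_zero.2 hx), padicValRat.neg, up_neg, cq_neg hp (UV.up hp hx),
      mul_zpow]
    have h1 : sg p ^ (padicValRat p x * padicValRat p x) * cq p (up p x) ^ padicValRat p x *
        (sg p ^ padicValRat p x * cq p (up p x) ^ padicValRat p x) =
        sg p ^ (padicValRat p x * padicValRat p x + padicValRat p x) *
          cq p (up p x) ^ (padicValRat p x + padicValRat p x) := by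
      rw [zpow_add, zpow_add]
      ac_rfl
    rw [h1, u_even, u_even]
    · rfl
    · exact ⟨_, rfl⟩
    · have := Int.even_mul_succ_self (padicValRat p x)
      rwa [mul_add, mul_one] at this
  · intro h1 h2
    rw [tm_eq hp hx hy, h1, h2]
    simp

namespace TMMaux

open ZPBaux

lemma hsl_eq {p : ℕ} (hp : p.Prime) (l : List ℚ) (hl : ∀ x ∈ l, x ≠ 0) :
    pod p l ≠ 0 ∧ l.prod ≠ 0 ∧
      (∃ j : ℤ, padicValRat p l.prod = (nod p l : ℤ) + 2 * j) ∧
      hsl p l = ((sg p ^ (nod p l).choose 2 * cq p (up p l.prod) ^ nod p l * cu (pod p l) : ℤˣ) : ℤ) := by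
  classical
  have : Fact p.Prime := ⟨hp⟩
  induction l with
  | nil =>
    refine ⟨by simp [pod], by simp, ⟨0, by simp [nod]⟩, ?_⟩
    simp [hsl, nod, pod, cu_one]
  | cons x l ih =>
    obtain ⟨h1, h2, ⟨j, hj⟩, h4⟩ := ih fun y hy => hl y (List.mem_cons_of_mem _ hy)
    have hx : x ≠ 0 := hl x List.mem_cons_self
    have hUx := UV.up hp hx
    have hUl := UV.up hp h2
    have hcq : cq p (up p (x * l.prod)) = cq p (up p x) * cq p (up p l.prod) := by
      rw [up_mul hp hx h2, cq_mul hp hUx hUl]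
    by_cases ho : Odd (padicValRat p x)
    · have hn : nod p (x :: l) = nod p l + 1 := by
        unfold nod
        rw [List.countP_cons_of_pos (by simpa using ho)]
      have hpd : pod p (x :: l) = rsd p (up p x) * pod p l := by
        unfold pod
        rw [List.filter_cons_of_pos (by simpa using ho), List.map_cons, List.prod_cons]
      obtain ⟨i, hi⟩ := ho
      refine ⟨?_, ?_, ⟨i + j, ?_⟩, ?_⟩
      · rw [hpd]
        exact mul_ne_zero (hUx.rsd_ne hp) h1
      · rw [List.prod_cons]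
        exact mul_ne_zero hx h2
      · rw [List.prod_cons, padicValRat.mul hx h2, hn, hi, hj]
        push_cast
        ring
      · change tm p x l.prod * hsl p l = _
        rw [h4, tm_eq hp hx h2, ← Units.val_mul, hn, hpd, List.prod_cons, hcq,
          cu_mul hp (hUx.rsd_ne hp) h1, hi, hj]
        congr 1
        exact aux_odd _ _ _ _ _ _ _
    · have hn : nod p (x :: l) = nod p l := by
        unfold nod
        rw [List.countP_cons_of_neg (by simpa using ho)]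
      have hpd : pod p (x :: l) = pod p l := by
        unfold pod
        rw [List.filter_cons_of_neg (by simpa using ho)]
      obtain ⟨i, hi⟩ := Int.not_odd_iff_even.1 ho
      refine ⟨?_, ?_, ⟨i + j, ?_⟩, ?_⟩
      · rw [hpd]
        exact h1
      · rw [List.prod_cons]
        exact mul_ne_zero hx h2
      · rw [List.prod_cons, padicValRat.mul hx h2, hn, hi, hj]
        ring
      · change tm p x l.prod * hsl p l = _
        rw [h4, tm_eq hp hx h2, ← Units.val_mul, hn, hpd, List.prod_cons, hcq, hi, hj]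
        congr 1
        exact aux_even _ _ _ _ _ _ _

end TMMaux

open TMMaux in
theorem hslq : HSLStmt := by
  rintro p ⟨hp, -⟩ l m hl hm
  obtain ⟨h1, h2, -, h4⟩ := hsl_eq hp l hl
  have : Fact p.Prime := ⟨hp⟩
  refine ⟨?_, h1⟩
  have h5 : rsd p (-1) = -1 := by
    have h := ((zpb p hp).2.2.2.1 (-1)).2
    simpa using h
  have h6 : cu ((-1 : ZMod p) ^ m) = sg p ^ m := by
    rw [sg, ← cq_pow hp UV.negone]
    unfold cq
    congr 1
    clear hm
    induction m with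
    | zero => rw [pow_zero, pow_zero, rsd_one hp]
    | succ m ih =>
      have h7 : UV p ((-1) ^ m) := by
        have := (UV.negone (p := p)).zpow hp (m : ℤ)
        rwa [zpow_natCast] at this
      rw [pow_succ, pow_succ, rsd_mul hp (h7.mem hp) (UV.negone.mem hp), ← ih, h5]
  rw [h4, hm, ← coe_cu, cu_mul hp (pow_ne_zero _ (neg_ne_zero.2 one_ne_zero)) h1, h6]
  congr 1
  exact aux_fin _ _ _ _

end Pool.NF
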