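import Pool.Agent.H85.NF.Q

/-!
# NF: first properties of the rational numbers regular at `p`, and the quadratic character
-/

set_option autoImplicit false

namespace Pool.NF

open Matrix Pool.T1 Pool.AVS

namespace ZPBaux

lemma val_def (p : ℕ) (x : ℚ) :
    padicValRat p x = (padicValInt p x.num : ℤ) - (padicValNat p x.den : ℤ) := rfl

lemma mem_iff {p : ℕ} (hp : p.Prime) {x : ℚ} (_hx : x ≠ 0) : x ∈ Zp p ↔ 0 ≤ padicValRat p x := by
  have : Fact p.Prime := ⟨hp⟩
  rw [val_def]
  constructor
  · intro h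
    have h' : ¬ p ∣ x.den := h
    rw [padicValNat.eq_zero_of_not_dvd h']
    simp
  · intro h h'
    have h1 : ¬ (p : ℤ) ∣ x.num := by
      intro h2
      have h3 : p ∣ x.num.natAbs := Int.natCast_dvd.1 h2
      have h4 := Nat.dvd_gcd h3 h'
      rw [x.reduced.gcd_eq_one] at h4
      exact hp.one_lt.ne' (Nat.dvd_one.1 h4)
    rw [padicValInt.eq_zero_of_not_dvd h1] at h
    have h5 := one_le_padicValNat_of_dvd x.den_nz h'
    omega

lemma zero_mem {p : ℕ} (hp : p.Prime) : (0 : ℚ) ∈ Zp p := by
  intro h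
  have h1 : p ∣ 1 := h
  exact hp.one_lt.ne' (Nat.dvd_one.1 h1)

/-- The local ring as a valuation ring. -/
def ZO {p : ℕ} (hp : p.Prime) : ValuationSubring ℚ where
  carrier := Zp p
  mul_mem' := by
    intro x y hx hy h
    rcases (Nat.Prime.dvd_mul hp).1 (h.trans (Rat.mul_den_dvd x y)) with h1 | h1
    · exact hx h1
    · exact hy h1
  one_mem' := by
    intro h
    have h1 : p ∣ 1 := h
    exact hp.one_lt.ne' (Nat.dvd_one.1 h1)
  add_mem' := by
    intro x y hx hy h
    rcases (Nat.Prime.dvd_mul hp).1 (h.trans (Rat.add_den_dvd x y)) with h1 | h1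
    · exact hx h1
    · exact hy h1
  zero_mem' := zero_mem hp
  neg_mem' := by
    intro x hx h
    exact hx h
  mem_or_inv_mem' := by
    intro x
    have : Fact p.Prime := ⟨hp⟩
    by_cases hx : x = 0
    · left
      rw [hx]
      exact zero_mem hp
    · change x ∈ Zp p ∨ x⁻¹ ∈ Zp p
      rw [mem_iff hp hx, mem_iff hp (inv_ne_zero hx), padicValRat.inv]
      omega

lemma den_ne {p : ℕ} [Fact p.Prime] {x : ℚ} (hx : x ∈ Zp p) : (x.den : ZMod p) ≠ 0 := by
  intro h
  exact hx ((ZMod.natCast_eq_zero_iff _ _).1 h)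

lemma val_p {p : ℕ} (hp : p.Prime) : padicValRat p (p : ℚ) = 1 := padicValRat.self hp.one_lt

lemma val_up {p : ℕ} (hp : p.Prime) {x : ℚ} (hx : x ≠ 0) : padicValRat p (up p x) = 0 := by
  have : Fact p.Prime := ⟨hp⟩
  have hp0 : (p : ℚ) ≠ 0 := Nat.cast_ne_zero.2 hp.ne_zero
  unfold up
  rw [padicValRat.div hx (zpow_ne_zero _ hp0), padicValRat.zpow, val_p hp]
  ring

lemma up_ne {p : ℕ} (hp : p.Prime) {x : ℚ} (hx : x ≠ 0) : up p x ≠ 0 :=
  div_ne_zero hx (zpow_ne_zero _ (Nat.cast_ne_zero.2 hp.ne_zero))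

end ZPBaux

open ZPBaux in
theorem zpb : ZPBStmt := by
  intro p hp
  have : Fact p.Prime := ⟨hp⟩
  have hp0 : (p : ℚ) ≠ 0 := Nat.cast_ne_zero.2 hp.ne_zero
  refine ⟨⟨ZO hp, rfl, hp0, ?_, ?_, ?_⟩, ?_, ?_, ?_, ?_⟩
  · change (p : ℚ) ∈ Zp p
    rw [mem_iff hp hp0, val_p hp]
    norm_num
  · change ¬ (p : ℚ)⁻¹ ∈ Zp p
    rw [mem_iff hp (inv_ne_zero hp0), padicValRat.inv, val_p hp]
    norm_num
  · intro z hz hz'
    have hz0 : z ≠ 0 := by
      rintro rfl
      apply hz'
      rw [_root_.inv_zero]
      exact zero_mem hp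
    have hz1 : ¬ z⁻¹ ∈ Zp p := hz'
    rw [mem_iff hp (inv_ne_zero hz0), padicValRat.inv] at hz1
    change z / p ∈ Zp p
    rw [mem_iff hp (div_ne_zero hz0 hp0), padicValRat.div hz0 hp0, val_p hp]
    omega
  · intro x hx
    refine ⟨⟨up_ne hp hx, ?_, ?_⟩, mem_iff hp hx⟩
    · rw [mem_iff hp (up_ne hp hx), val_up hp hx]
    · rw [mem_iff hp (inv_ne_zero (up_ne hp hx)), padicValRat.inv, val_up hp hx]
      norm_num
  · intro x hx y hy
    have h1 := den_ne hx
    have h2 := den_ne hy
    have h3 := den_ne ((ZO hp).add_mem _ _ hx hy : x + y ∈ Zp p)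
    have h4 := den_ne ((ZO hp).mul_mem _ _ hx hy : x * y ∈ Zp p)
    constructor
    · have h5 := congrArg (Int.cast : ℤ → ZMod p) (Rat.add_num_den' x y)
      push_cast at h5
      unfold rsd
      field_simp
      linear_combination h5
    · have h5 := congrArg (Int.cast : ℤ → ZMod p) (Rat.mul_num_den' x y)
      push_cast at h5
      unfold rsd
      field_simp
      linear_combination h5
  · intro n
    constructor
    · intro h
      rw [Rat.den_intCast] at h
      exact hp.one_lt.ne' (Nat.dvd_one.1 h)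
    · unfold rsd
      rw [Rat.den_intCast, Rat.num_intCast]
      simp
  · intro x hx
    have h1 := den_ne hx
    have h2 : rsd p x = 0 ↔ (p : ℤ) ∣ x.num := by
      unfold rsd
      rw [mul_eq_zero, or_iff_left (inv_ne_zero h1), ZMod.intCast_zmod_eq_zero_iff_dvd]
    rw [h2]
    by_cases hx0 : x = 0
    · subst hx0
      constructor
      · intro _
        rw [zero_div]
        exact zero_mem hp
      · intro _
        simp
    · rw [mem_iff hp (div_ne_zero hx0 hp0), padicValRat.div hx0 hp0, val_p hp, val_def]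
      have h3 : padicValNat p x.den = 0 := padicValNat.eq_zero_of_not_dvd hx
      rw [h3]
      constructor
      · intro h4
        have h5 : 1 ≤ padicValInt p x.num := by
          rw [Nat.one_le_iff_ne_zero]
          intro h6
          rcases padicValInt.eq_zero_iff.1 h6 with h7 | h7 | h7
          · exact hp.one_lt.ne' h7
          · exact hx0 (Rat.num_eq_zero.1 h7)
          · exact h7 h4
        omega
      · intro h4
        by_contra h5
        rw [padicValInt.eq_zero_of_not_dvd h5] at h4
        norm_num at h4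

theorem chm : CHMStmt := by
  intro p hp a b ha hb
  have : Fact p.Prime := ⟨hp⟩
  have hsq : ∀ c : ZMod p, c ≠ 0 → ∀ d : ZMod p, d ≠ 0 → IsSquare c → (IsSquare (c * d) ↔ IsSquare d) := by
    intro c hc d _ h
    constructor
    · intro h'
      have h1 : d = (c * d) / c := by
        field_simp
      rw [h1]
      exact h'.div h
    · intro h'
      exact h.mul h'
  refine ⟨?_, ?_, ?_, ?_⟩
  · by_cases h1 : IsSquare a
    · by_cases h2 : IsSquare b
      · have h3 := (hsq a ha b hb h1).2 h2
        simp [ch, h1, h2, h3]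
      · have h3 : ¬ IsSquare (a * b) := fun h => h2 ((hsq a ha b hb h1).1 h)
        simp [ch, h1, h2, h3]
    · by_cases h2 : IsSquare b
      · have h3 : ¬ IsSquare (a * b) := fun h => h1 ((hsq b hb a ha h2).1 (by rwa [mul_comm]))
        simp [ch, h1, h2, h3]
      · have h3 : IsSquare (a * b) := by
          by_cases hc : ringChar (ZMod p) = 2
          · exact absurd (FiniteField.isSquare_of_char_two hc a) h1
          · have h4 := (quadraticChar_neg_one_iff_not_isSquare).2 h1
            have h5 := (quadraticChar_neg_one_iff_not_isSquare).2 h2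
            rw [← quadraticChar_one_iff_isSquare (mul_ne_zero ha hb), map_mul, h4, h5]
            norm_num
        simp [ch, h1, h2, h3]
  · simp [ch]
  · simp [ch]
  · by_cases h1 : IsSquare a
    · left
      simp [ch, h1]
    · right
      simp [ch, h1]

end Pool.NF
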